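import Pool.Agent.U207.AP.Asm
import Pool.Agent.U207.PD.Main

/-! Potential density from coverings by subvarieties which dominate the common base and are
connected by curves of genus at most one. -/

set_option autoImplicit false

namespace Pool.Agent.U207.AP

open MvPolynomial AlgebraicGeometry CategoryTheory Pool.Agent.Y720.MZ
open Pool.Agent.W572 Pool.Agent.W572.G Pool.Agent.Y742.GG Pool.Agent.Y742 Pool.Agent.R867.Mov
open Pool.Agent.R867.D Pool.Agent.U207.PD

/-- the moves along the fibrations -/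
theorem exists_inst {Ω K : Type} [Field Ω] [CharZero Ω] [IsAlgClosed Ω] [Field K] [Algebra Ω K]
    [CharZero K] [DecidableEq K] {N m : ℕ} (x : Fin N → K) (L : Fin m → IntermediateField Ω K)
    (hL : ∀ i, IsDoubleCoverOfLine (L i) ∨ IsEllipticTorsor (L i)) :
    ∃ (n : ℕ) (D : Fin n → Derivation Ω K K) (μ : Fin n → Mv K N),
      (∀ i l, (μ i).d l = D i (x l)) ∧
      (∀ i, ∀ (k : Type) [Field k] (c : k →+* Ω)
      (G : MvPolynomial (Fin N) k), eval₂ ((algebraMap Ω K).comp c) x G = 0 →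
        (μ i).Ok ((algebraMap Ω K).comp c) G x) ∧
      (∀ i, dc ((μ i).w ^ 2) (μ i).q₁ (μ i).q₂ (μ i).q₃ (μ i).q₄ ≠ 0 → ∀ h, ∀ n : ℕ, n ≠ 0 →
        n • (.some (xs (μ i).w (μ i).q₁ (μ i).q₂) (ys (μ i).w (μ i).q₁ (μ i).q₂ (μ i).q₃) h :
          Pt (μ i).q₂ (rb (μ i).w (μ i).q₁ (μ i).q₃ (μ i).q₄)
            (rc (μ i).w (μ i).q₁ (μ i).q₂ (μ i).q₃ (μ i).q₄)) ≠ 0) ∧
      ∀ g : LieSubalgebra Ω (Derivation Ω K K), (∀ D ∈ g, ∀ c : K, c • D ∈ g) →
        (∀ i, D i ∈ g) → ∀ E : Derivation Ω K K, (∀ a ∈ Pool.Agent.U207.GB.inv L, E a = 0) →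
        ∀ {n : ℕ} (y : Fin n → K), IsTranscendenceBasis (Pool.Agent.U207.GB.inv L) y → E ∈ g := by
  let J : Type := {i : Fin m // ∃ E : Derivation Ω K K, E ≠ 0 ∧ ∀ a ∈ L i, E a = 0}
  have hJ : Finite J := Subtype.finite
  have hinst : ∀ i : J, ∃ (D : Derivation Ω K K) (μ : Mv K N),
      (∀ E' : Derivation Ω K K, (∀ a ∈ L i.1, E' a = 0) →
        ∃ c : K, E' = c • D) ∧ (∀ l, μ.d l = D (x l)) ∧
      (∀ (k : Type) [Field k] (c : k →+* Ω)
      (G : MvPolynomial (Fin N) k), eval₂ ((algebraMap Ω K).comp c) x G = 0 →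
        μ.Ok ((algebraMap Ω K).comp c) G x) ∧
      (dc (μ.w ^ 2) μ.q₁ μ.q₂ μ.q₃ μ.q₄ ≠ 0 → ∀ h, ∀ n : ℕ, n ≠ 0 →
        n • (.some (xs μ.w μ.q₁ μ.q₂) (ys μ.w μ.q₁ μ.q₂ μ.q₃) h :
          Pt μ.q₂ (rb μ.w μ.q₁ μ.q₃ μ.q₄) (rc μ.w μ.q₁ μ.q₂ μ.q₃ μ.q₄)) ≠ 0) := by
    rintro ⟨i, E, hE, hEL⟩
    rcases hL i with ⟨t, w, Q, ht, hw, hdeg, hQ, hg⟩ | ⟨K', _, _, _, hfin, hgal, a, b, c, X, Y, H⟩
    · obtain ⟨D, hD, hDt, hall⟩ := exists_norm ht hw hQ hg hE hEL
      obtain ⟨μ, h1, h2, h3⟩ := inst x ht hw hdeg hQ hg D hD hDt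
      exact ⟨D, μ, hall, h1, h2, h3⟩
    · obtain ⟨E₁, D₁, hE₁, hD₁, hX, hall⟩ := H.norm hE hEL
      obtain ⟨μ, h1, h2, h3⟩ := H.inst x hE₁ hD₁ hX
      refine ⟨-E₁, μ, fun E' hE' => ?_, h1, h2, h3⟩
      obtain ⟨c, hc⟩ := hall E' hE'
      exact ⟨-c, by rw [hc, neg_smul_neg]⟩
  choose D μ hall hd hOk hinf using hinst
  let e := Finite.equivFin J
  refine ⟨Nat.card J, fun i => D (e.symm i), fun i => μ (e.symm i), fun i => hd _,
    fun i => hOk _, fun i => hinf _, fun g hg hgD E hE n y hy => ?_⟩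
  refine Pool.Agent.U207.GB.mem_lie L y hy (fun i => ?_) g hg (fun i D' hD' => ?_) E hE
  · rcases hL i with h | h
    · exact CN.curve_double h
    · exact CN.curve_torsor h
  · by_cases h0 : D' = 0
    · rw [h0]
      exact zero_mem _
    · let i' : J := ⟨i, D', h0, hD'⟩
      obtain ⟨c, hc⟩ := hall i' D' hD'
      rw [hc]
      have h1 : D (e.symm (e i')) ∈ g := hgD (e i')
      rw [Equiv.symm_apply_apply] at h1
      exact hg _ h1 c

/-- transcendence bases over the common invariants -/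
theorem exists_basis_inv {Ω K : Type} [Field Ω] [Field K] [Algebra Ω K] {N m : ℕ} {x : Fin N → K}
    (hx : IntermediateField.adjoin Ω (Set.range x) = ⊤) (L : Fin m → IntermediateField Ω K) :
    ∃ (n : ℕ) (y : Fin n → K), IsTranscendenceBasis (Pool.Agent.U207.GB.inv L) y := by
  have htop : IntermediateField.adjoin (Pool.Agent.U207.GB.inv L) (Set.range x) = ⊤ := by
    rw [eq_top_iff]
    intro z _
    have h1 : z ∈ IntermediateField.adjoin Ω (Set.range x) := by
      rw [hx]; trivial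
    have h2 : IntermediateField.adjoin Ω (Set.range x) ≤
        (IntermediateField.adjoin (Pool.Agent.U207.GB.inv L)
          (Set.range x)).restrictScalars Ω := by
      rw [IntermediateField.adjoin_le_iff]
      exact IntermediateField.subset_adjoin _ _
    exact h2 h1
  have halg : Algebra.IsAlgebraic (Algebra.adjoin (Pool.Agent.U207.GB.inv L) (Set.range x)) K := by
    rw [← IntermediateField.isAlgebraic_adjoin_iff_top, htop]
    exact ⟨fun a => isAlgebraic_algebraMap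
      (⟨a, trivial⟩ : (⊤ : IntermediateField (Pool.Agent.U207.GB.inv L) K))⟩
  obtain ⟨s, hs, hs'⟩ := exists_isTranscendenceBasis_subset (R := Pool.Agent.U207.GB.inv L)
    (Set.range x)
  have hfin : s.Finite := (Set.finite_range x).subset hs
  have : Finite s := hfin
  let e := Finite.equivFin s
  exact ⟨Nat.card s, fun i => (e.symm i : K), hs'.comp_equiv e.symm⟩

/-- **Main theorem for coverings by subvarieties connected by curves of genus at most one.** -/
theorem main_fib (k₀ : Type) [Field k₀] [CharZero k₀] (hk₀ : FG k₀) {N m : ℕ}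
    (F : MvPolynomial (Fin N) k₀)
    (hF : Irreducible (map (algebraMap k₀ (AlgebraicClosure k₀)) F))
    {K : Type} [Field K] [Algebra (AlgebraicClosure k₀) K] {x : Fin N → K}
    (hx : IsGenericPoint (map (algebraMap k₀ (AlgebraicClosure k₀)) F) x)
    (L : Fin m → IntermediateField (AlgebraicClosure k₀) K)
    (hL : ∀ i, IsDoubleCoverOfLine (L i) ∨ IsEllipticTorsor (L i))
    (S : Set (Fin N)) (hS : AlgebraicIndependent (AlgebraicClosure k₀) (fun i : S => x i))
    (hinv : ∀ a : K, (∀ i, IsAlgebraic (L i) a) →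
      IsAlgebraic (Algebra.adjoin (AlgebraicClosure k₀) (x '' S)) a)
    {q n : ℕ} {G : MvPolynomial (Fin q) (AlgebraicClosure k₀)} (hG : Irreducible G) {J : Type}
    [Field J] [Algebra (AlgebraicClosure k₀) J] {z : Fin q → J} (hz : IsGenericPoint G z)
    (L' : Fin n → IntermediateField (AlgebraicClosure k₀) J)
    (hL' : ∀ i, IsDoubleCoverOfLine (L' i) ∨ IsEllipticTorsor (L' i)) (S' : Set (Fin q))
    (hinv' : ∀ a : J, (∀ i, IsAlgebraic (L' i) a) →
      IsAlgebraic (Algebra.adjoin (AlgebraicClosure k₀) (z '' S')) a)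
    (θ : K →ₐ[AlgebraicClosure k₀] J)
    (hθ : AlgebraicIndependent (AlgebraicClosure k₀)
      (Sum.elim (fun s : S => θ (x s)) (fun s : S' => z s)))
    {X : Scheme.{0}} (sX : X ⟶ Spec (.of k₀)) (f : (hypersurface F).PartialMap X)
    (hf : IsDominant f.hom) (hfk : f.hom ≫ sX = f.domain.ι ≫ hypersurfaceStr F) :
    PotentiallyDense sX := by
  classical
  have hcK : CharZero K := charZero_of_injective_algebraMap
    (algebraMap (AlgebraicClosure k₀) K).injective
  have hcJ : CharZero J := charZero_of_injective_algebraMap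
    (algebraMap (AlgebraicClosure k₀) J).injective
  have hF0x : aeval x (map (algebraMap k₀ (AlgebraicClosure k₀)) F) = 0 :=
    (hx.zero_iff _).2 dvd_rfl
  obtain ⟨l₀, hS₀, hl₀⟩ := Pool.Agent.U207.GB.exists_l0 hF.ne_zero hF0x hS
  have hl₀' : pderiv l₀ F ≠ 0 := by
    intro h0
    apply hl₀
    rw [pderiv_map, h0, map_zero]
  obtain ⟨ny, y, hy⟩ := exists_basis_inv hx.generates L
  obtain ⟨ny', y', hy'⟩ := exists_basis_inv hz.generates L'
  obtain ⟨m₁, D, μ, hd, hOk, hinf, hgen⟩ := exists_inst x L hL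
  obtain ⟨m₂, Dz, ν, hdz, hOkz, hinfz, hgenz⟩ := exists_inst z L' hL'
  -- the dual derivations
  have hder : ∀ s : S, ∃ A : Derivation (AlgebraicClosure k₀) J J, ∀ i : S ⊕ S',
      A (Sum.elim (fun s : S => θ (x s)) (fun s : S' => z s) i) =
        Sum.elim (fun t : S => if s = t then (1 : J) else 0) (fun _ => 0) i :=
    fun s => Pool.Agent.H135R2.VS.exists_der hθ _
  choose A hA using hder
  have hA1 : ∀ s : S, A s (θ (x s)) = 1 := fun s => by
    have h1 := hA s (Sum.inl s)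
    simpa using h1
  have hA2 : ∀ s t : S, s ≠ t → A s (θ (x t)) = 0 := fun s t hst => by
    have h1 := hA s (Sum.inl t)
    simpa [hst] using h1
  have hA3 : ∀ (s : S) (t : S'), A s (z t) = 0 := fun s t => by
    have h1 := hA s (Sum.inr t)
    simpa using h1
  have hxθ : ∀ P : MvPolynomial (Fin N) (AlgebraicClosure k₀),
      aeval (fun l => θ (x l)) P = 0 ↔ aeval x P = 0 := by
    intro P
    have h1 : aeval (fun l => θ (x l)) P = θ (aeval x P) := by
      rw [← comp_aeval_apply]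
    rw [h1, map_eq_zero]
  obtain ⟨L₁, hL₁, hLd⟩ := asm_fib k₀ hk₀ F hF hx.zero_iff hx.generates hS₀ hl₀' D μ hd hOk hinf
    (by
      intro k hkS hkl g hg hgD E hE
      refine hgen g hg hgD E (fun a ha => ?_) y hy
      refine Pool.Agent.U207.GB.der_alg E (x '' S) ?_
          (hinv a (Pool.Agent.U207.GB.mem_inv.mp ha))
      rintro _ ⟨s, hs, rfl⟩
      refine hE s ?_ ?_
      · rintro rfl
        exact hkS hs
      · rintro rfl
        exact hS₀ hs) hG hz.zero_iff hz.generates Dz ν hdz hOkz hinfz A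
    (by
      intro s g hg hgD
      refine hgenz g hg hgD (A s) (fun a ha => ?_) y' hy'
      refine Pool.Agent.U207.GB.der_alg (A s) (z '' S') ?_
          (hinv' a (Pool.Agent.U207.GB.mem_inv.mp ha))
      rintro _ ⟨t, ht, rfl⟩
      exact hA3 s ⟨t, ht⟩) (fun l => θ (x l)) hxθ hA1 hA2
  exact dense_of_field k₀ F L₁ hLd sX f hf hfk

end Pool.Agent.U207.AP
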