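import Pool.Agent.U207.AP.One
import Pool.Agent.U207.AP.Main

/-! Potential density from one subvariety which dominates the common base and is connected by curves
of genus at most one. -/

set_option autoImplicit false

namespace Pool.Agent.U207.AP

open MvPolynomial AlgebraicGeometry CategoryTheory Pool.Agent.Y720.MZ
open Pool.Agent.W572 Pool.Agent.W572.G Pool.Agent.Y742.GG Pool.Agent.Y742 Pool.Agent.R867.Mov
open Pool.Agent.R867.D Pool.Agent.U207.PD

/-- **Main theorem for one subvariety connected by curves of genus at most one.** -/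
theorem main_one (k₀ : Type) [Field k₀] [CharZero k₀] (hk₀ : FG k₀) {N m : ℕ}
    (F : MvPolynomial (Fin N) k₀)
    (hF : Irreducible (map (algebraMap k₀ (AlgebraicClosure k₀)) F))
    {K : Type} [Field K] [Algebra (AlgebraicClosure k₀) K] {x : Fin N → K}
    (hx : IsGenericPoint (map (algebraMap k₀ (AlgebraicClosure k₀)) F) x)
    (L : Fin m → IntermediateField (AlgebraicClosure k₀) K)
    (hL : ∀ i, IsDoubleCoverOfLine (L i) ∨ IsEllipticTorsor (L i))
    (S : Set (Fin N)) (hS : AlgebraicIndependent (AlgebraicClosure k₀) (fun i : S => x i))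
    (hinv : ∀ a : K, (∀ i, IsAlgebraic (L i) a) →
      IsAlgebraic (Algebra.adjoin (AlgebraicClosure k₀) (x '' S)) a) :
    ∃ T : ℕ → MvPolynomial (Fin N) (AlgebraicClosure k₀),
      (∀ n, ¬ map (algebraMap k₀ (AlgebraicClosure k₀)) F ∣ T n) ∧
      ∀ {q n : ℕ} {G : MvPolynomial (Fin q) (AlgebraicClosure k₀)} (_ : Irreducible G) {J : Type}
        [Field J] [Algebra (AlgebraicClosure k₀) J] {z : Fin q → J} (_ : IsGenericPoint G z)
        (L' : Fin n → IntermediateField (AlgebraicClosure k₀) J)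
        (_ : ∀ i, IsDoubleCoverOfLine (L' i) ∨ IsEllipticTorsor (L' i)) (S' : Set (Fin q))
        (_ : ∀ a : J, (∀ i, IsAlgebraic (L' i) a) →
          IsAlgebraic (Algebra.adjoin (AlgebraicClosure k₀) (z '' S')) a)
        (θ : Fin N → J), aeval θ (map (algebraMap k₀ (AlgebraicClosure k₀)) F) = 0 →
        (∀ n, aeval θ (T n) ≠ 0) →
        AlgebraicIndependent (AlgebraicClosure k₀)
          (Sum.elim (fun s : S => θ s) (fun s : S' => z s)) →
        ∀ {X : Scheme.{0}} (sX : X ⟶ Spec (.of k₀)) (f : (hypersurface F).PartialMap X),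
          IsDominant f.hom → f.hom ≫ sX = f.domain.ι ≫ hypersurfaceStr F →
          PotentiallyDense sX := by
  classical
  have hcK : CharZero K := charZero_of_injective_algebraMap
    (algebraMap (AlgebraicClosure k₀) K).injective
  have hF0x : aeval x (map (algebraMap k₀ (AlgebraicClosure k₀)) F) = 0 :=
    (hx.zero_iff _).2 dvd_rfl
  obtain ⟨l₀, hS₀, hl₀⟩ := Pool.Agent.U207.GB.exists_l0 hF.ne_zero hF0x hS
  have hl₀' : pderiv l₀ F ≠ 0 := by
    intro h0
    apply hl₀
    rw [pderiv_map, h0, map_zero]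
  obtain ⟨ny, y, hy⟩ := exists_basis_inv hx.generates L
  obtain ⟨m₁, D, μ, hd, hOk, hinf, hgen⟩ := exists_inst x L hL
  obtain ⟨T, hT, H⟩ := asm_one k₀ hk₀ F hF hx.zero_iff hx.generates hS₀ hl₀' D μ hd hOk hinf
    (by
      intro k hkS hkl g hg hgD E hE
      refine hgen g hg hgD E (fun a ha => ?_) y hy
      refine Pool.Agent.U207.GB.der_alg E (x '' S) ?_
          (hinv a (Pool.Agent.U207.GB.mem_inv.mp ha))
      rintro _ ⟨s, hs, rfl⟩
      refine hE s ?_ ?_
      · rintro rfl
        exact hkS hs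
      · rintro rfl
        exact hS₀ hs)
  refine ⟨T, fun n hn => hT n ((hx.zero_iff _).2 hn), ?_⟩
  intro q n G hG J _ _ z hz L' hL' S' hinv' θ hθF hθT hθ X sX f hf hfk
  have hcJ : CharZero J := charZero_of_injective_algebraMap
    (algebraMap (AlgebraicClosure k₀) J).injective
  obtain ⟨ny', y', hy'⟩ := exists_basis_inv hz.generates L'
  obtain ⟨m₂, Dz, ν, hdz, hOkz, hinfz, hgenz⟩ := exists_inst z L' hL'
  -- the dual derivations
  have hder : ∀ s : S, ∃ A : Derivation (AlgebraicClosure k₀) J J, ∀ i : S ⊕ S',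
      A (Sum.elim (fun s : S => θ s) (fun s : S' => z s) i) =
        Sum.elim (fun t : S => if s = t then (1 : J) else 0) (fun _ => 0) i :=
    fun s => Pool.Agent.H135R2.VS.exists_der hθ _
  choose A hA using hder
  have hA1 : ∀ s : S, A s (θ s) = 1 := fun s => by
    have h1 := hA s (Sum.inl s)
    simpa using h1
  have hA2 : ∀ s t : S, s ≠ t → A s (θ t) = 0 := fun s t hst => by
    have h1 := hA s (Sum.inl t)
    simpa [hst] using h1
  have hA3 : ∀ (s : S) (t : S'), A s (z t) = 0 := fun s t => by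
    have h1 := hA s (Sum.inr t)
    simpa using h1
  obtain ⟨L₁, hL₁, hLd⟩ := H hG hz.zero_iff hz.generates Dz ν hdz hOkz hinfz A
    (by
      intro s g hg hgD
      refine hgenz g hg hgD (A s) (fun a ha => ?_) y' hy'
      refine Pool.Agent.U207.GB.der_alg (A s) (z '' S') ?_
          (hinv' a (Pool.Agent.U207.GB.mem_inv.mp ha))
      rintro _ ⟨t, ht, rfl⟩
      exact hA3 s ⟨t, ht⟩) θ hθF hθT hA1 hA2
  exact dense_of_field k₀ F L₁ hLd sX f hf hfk

end Pool.Agent.U207.AP
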