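import Pool.Agent.U207.AP.Asm
import Pool.Agent.U207.PD.Asm

/-! Assembly: potential density from one subvariety which dominates the base and is connected by
curves of genus at most one. Adapted from `Pool.Agent.U207.PD.Asm` and `Pool.Agent.U207.AP.Asm`. -/

set_option autoImplicit false
set_option linter.unusedSectionVars false

open Pool.Agent.Y720.MZ Filter Topology MvPolynomial Pool.Agent.Y742.GG Pool.Agent.R867.Mov
open Pool.Agent.R867.D Pool.Agent.U207.PD

namespace Pool.Agent.U207.AP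

/-- two homomorphisms with the same kernel -/
theorem two_homs {R J Q : Type} [CommRing R] [Field J] [Field Q] (ψ : R →+* J) (τ : R →+* Q)
    (h : ∀ a, τ a = 0 ↔ ψ a = 0) :
    ∃ (κ : Type) (_ : Field κ) (π : R →+* κ) (ι : κ →+* J) (e : κ →+* Q),
      (∀ a, ι (π a) = ψ a) ∧ ∀ a, e (π a) = τ a := by
  have hprime : (RingHom.ker ψ).IsPrime := RingHom.ker_isPrime ψ
  have hdom : IsDomain (R ⧸ RingHom.ker ψ) := Ideal.Quotient.isDomain _
  have hτ : ∀ a ∈ RingHom.ker ψ, τ a = 0 := fun a ha => (h a).2 (RingHom.mem_ker.1 ha)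
  have hψ : ∀ a ∈ RingHom.ker ψ, ψ a = 0 := fun a ha => RingHom.mem_ker.1 ha
  have h1 : Function.Injective (Ideal.Quotient.lift (RingHom.ker ψ) ψ hψ) := by
    rw [injective_iff_map_eq_zero]
    intro a ha
    obtain ⟨a, rfl⟩ := Ideal.Quotient.mk_surjective a
    rw [Ideal.Quotient.lift_mk] at ha
    exact Ideal.Quotient.eq_zero_iff_mem.2 (RingHom.mem_ker.2 ha)
  have h2 : Function.Injective (Ideal.Quotient.lift (RingHom.ker ψ) τ hτ) := by
    rw [injective_iff_map_eq_zero]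
    intro a ha
    obtain ⟨a, rfl⟩ := Ideal.Quotient.mk_surjective a
    rw [Ideal.Quotient.lift_mk] at ha
    exact Ideal.Quotient.eq_zero_iff_mem.2 (RingHom.mem_ker.2 ((h a).1 ha))
  refine ⟨FractionRing (R ⧸ RingHom.ker ψ), inferInstance,
    (algebraMap (R ⧸ RingHom.ker ψ) _).comp (Ideal.Quotient.mk _),
    IsFractionRing.lift (A := R ⧸ RingHom.ker ψ) h1,
    IsFractionRing.lift (A := R ⧸ RingHom.ker ψ) h2, fun a => ?_, fun a => ?_⟩
  · rw [RingHom.comp_apply, IsFractionRing.lift_algebraMap, Ideal.Quotient.lift_mk]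
  · rw [RingHom.comp_apply, IsFractionRing.lift_algebraMap, Ideal.Quotient.lift_mk]

/-- **Assembly.** -/
theorem asm_one (k₀ : Type) [Field k₀] [CharZero k₀] (hk₀ : FG k₀) {N m : ℕ}
    (F : MvPolynomial (Fin N) k₀)
    (hF : Irreducible (MvPolynomial.map (algebraMap k₀ (AlgebraicClosure k₀)) F))
    {K : Type} [Field K] [DecidableEq K] [Algebra (AlgebraicClosure k₀) K] {x : Fin N → K}
    (hx1 : ∀ P : MvPolynomial (Fin N) (AlgebraicClosure k₀), aeval x P = 0 ↔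
      MvPolynomial.map (algebraMap k₀ (AlgebraicClosure k₀)) F ∣ P)
    (hx2 : IntermediateField.adjoin (AlgebraicClosure k₀) (Set.range x) = ⊤)
    {S : Set (Fin N)} {l₀ : Fin N} (hS₀ : l₀ ∉ S) (hl₀ : pderiv l₀ F ≠ 0)
    (D : Fin m → Derivation (AlgebraicClosure k₀) K K) (μ : Fin m → Mv K N)
    (hd : ∀ i l, (μ i).d l = D i (x l))
    (hOk : ∀ i, ∀ (k : Type) [Field k] (c : k →+* AlgebraicClosure k₀)
      (G : MvPolynomial (Fin N) k), eval₂ ((algebraMap (AlgebraicClosure k₀) K).comp c) x G = 0 →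
        (μ i).Ok ((algebraMap (AlgebraicClosure k₀) K).comp c) G x)
    (hinf : ∀ i, dc ((μ i).w ^ 2) (μ i).q₁ (μ i).q₂ (μ i).q₃ (μ i).q₄ ≠ 0 → ∀ h, ∀ n : ℕ, n ≠ 0 →
      n • (.some (xs (μ i).w (μ i).q₁ (μ i).q₂) (ys (μ i).w (μ i).q₁ (μ i).q₂ (μ i).q₃) h :
        Pt (μ i).q₂ (rb (μ i).w (μ i).q₁ (μ i).q₃ (μ i).q₄)
          (rc (μ i).w (μ i).q₁ (μ i).q₂ (μ i).q₃ (μ i).q₄)) ≠ 0)
    (hgen : ∀ a, a ∉ S → a ≠ l₀ → ∀ g : LieSubalgebra (AlgebraicClosure k₀)
      (Derivation (AlgebraicClosure k₀) K K), (∀ D ∈ g, ∀ c : K, c • D ∈ g) → (∀ i, D i ∈ g) →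
      ∀ E : Derivation (AlgebraicClosure k₀) K K, (∀ l, l ≠ a → l ≠ l₀ → E (x l) = 0) → E ∈ g) :
    ∃ T : ℕ → MvPolynomial (Fin N) (AlgebraicClosure k₀), (∀ n, aeval x (T n) ≠ 0) ∧
      ∀ {q n : ℕ} {G : MvPolynomial (Fin q) (AlgebraicClosure k₀)} (hG : Irreducible G) {J : Type}
        [Field J] [DecidableEq J] [Algebra (AlgebraicClosure k₀) J] {z : Fin q → J}
        (hz1 : ∀ P : MvPolynomial (Fin q) (AlgebraicClosure k₀), aeval z P = 0 ↔ G ∣ P)
        (hz2 : IntermediateField.adjoin (AlgebraicClosure k₀) (Set.range z) = ⊤)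
        (Dz : Fin n → Derivation (AlgebraicClosure k₀) J J) (ν : Fin n → Mv J q)
        (hdz : ∀ i l, (ν i).d l = Dz i (z l))
        (hOkz : ∀ i, ∀ (k : Type) [Field k] (c : k →+* AlgebraicClosure k₀)
          (G : MvPolynomial (Fin q) k), eval₂ ((algebraMap (AlgebraicClosure k₀) J).comp c) z G = 0 →
            (ν i).Ok ((algebraMap (AlgebraicClosure k₀) J).comp c) G z)
        (hinfz : ∀ i, dc ((ν i).w ^ 2) (ν i).q₁ (ν i).q₂ (ν i).q₃ (ν i).q₄ ≠ 0 → ∀ h, ∀ n : ℕ, n ≠ 0 →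
          n • (.some (xs (ν i).w (ν i).q₁ (ν i).q₂) (ys (ν i).w (ν i).q₁ (ν i).q₂ (ν i).q₃) h :
            Pt (ν i).q₂ (rb (ν i).w (ν i).q₁ (ν i).q₃ (ν i).q₄)
              (rc (ν i).w (ν i).q₁ (ν i).q₂ (ν i).q₃ (ν i).q₄)) ≠ 0)
        (A : S → Derivation (AlgebraicClosure k₀) J J)
        (hgenz : ∀ s, ∀ g : LieSubalgebra (AlgebraicClosure k₀)
          (Derivation (AlgebraicClosure k₀) J J), (∀ D ∈ g, ∀ c : J, c • D ∈ g) → (∀ i, Dz i ∈ g) →
          A s ∈ g)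
        (θ : Fin N → J), aeval θ (MvPolynomial.map (algebraMap k₀ (AlgebraicClosure k₀)) F) = 0 →
        (∀ n, aeval θ (T n) ≠ 0) → (∀ s : S, A s (θ s) = 1) →
        (∀ s t : S, s ≠ t → A s (θ t) = 0) →
        ∃ L : IntermediateField k₀ (AlgebraicClosure k₀), FiniteDimensional k₀ L ∧
          ∀ P : MvPolynomial (Fin N) (AlgebraicClosure k₀),
            (∀ y : Fin N → AlgebraicClosure k₀, (∀ l, y l ∈ L) →
              eval y (MvPolynomial.map (algebraMap k₀ (AlgebraicClosure k₀)) F) = 0 →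
                eval y P = 0) →
            MvPolynomial.map (algebraMap k₀ (AlgebraicClosure k₀)) F ∣ P := by
  classical
  have hcK : CharZero K := charZero_of_injective_algebraMap
    (algebraMap (AlgebraicClosure k₀) K).injective
  have hfrac : ∀ f : K, ∃ P Q : MvPolynomial (Fin N) (AlgebraicClosure k₀), aeval x Q ≠ 0 ∧
      f * aeval x Q = aeval x P := by
    intro f
    have hf : f ∈ IntermediateField.adjoin (AlgebraicClosure k₀) (Set.range x) := by
      rw [hx2]; trivial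
    rw [IntermediateField.mem_adjoin_range_iff] at hf
    obtain ⟨r, s, hrs⟩ := hf
    by_cases hs : aeval x s = 0
    · rw [hs, div_zero] at hrs
      exact ⟨0, 1, by simp, by simp [hrs]⟩
    · exact ⟨r, s, hs, by rw [hrs, div_mul_cancel₀ _ hs]⟩
  have hfrac' := hfrac
  choose Pf Qf hQf hPf using hfrac
  set FΩ := MvPolynomial.map (algebraMap k₀ (AlgebraicClosure k₀)) F with hFΩ
  -- lifts of the derivations
  set u : Fin m → MvPolynomial (Fin N) (AlgebraicClosure k₀) := fun i =>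
    ∏ l, Qf (D i (x l)) with hu
  set v : Fin m → Fin N → MvPolynomial (Fin N) (AlgebraicClosure k₀) := fun i l =>
    Pf (D i (x l)) * ∏ a ∈ Finset.univ.erase l, Qf (D i (x a)) with hv
  have hu0 : ∀ i, aeval x (u i) ≠ 0 := by
    intro i
    rw [hu, map_prod]
    exact Finset.prod_ne_zero_iff.2 fun l _ => hQf _
  have huv : ∀ i l, aeval x (v i l) = aeval x (u i) * D i (x l) := by
    intro i l
    simp only [hu, hv]
    rw [← Finset.mul_prod_erase _ _ (Finset.mem_univ l), map_mul, map_mul, ← hPf]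
    ring
  have hst : ∀ a : Fin N, ∃ h : MvPolynomial (Fin N) (AlgebraicClosure k₀), aeval x h ≠ 0 ∧
      (a ∉ S → a ≠ l₀ → ∀ I : Ideal (MvPolynomial (Fin N) (AlgebraicClosure k₀)), FΩ ∈ I →
        (∀ i, ∀ g ∈ I, ∑ l, pderiv l g * v i l ∈ I) →
        ∀ g ∈ I, h * (pderiv l₀ FΩ * pderiv a g - pderiv a FΩ * pderiv l₀ g) ∈ I) := by
    intro a
    by_cases h1 : a ∉ S ∧ a ≠ l₀
    · obtain ⟨h, hh, hst⟩ := Pool.Agent.U207.GB.stable_rel hfrac' hx1 D l₀ a
        (hgen a h1.1 h1.2) u v hu0 huv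
      exact ⟨h, hh, fun _ _ => hst⟩
    · exact ⟨1, by simp, fun h2 h3 => absurd ⟨h2, h3⟩ h1⟩
  choose h hh hst using hst
  obtain ⟨H, hH⟩ : ∃ H, H = ∏ a, h a := ⟨_, rfl⟩
  have hH0 : aeval x H ≠ 0 := by
    rw [hH, map_prod]
    exact Finset.prod_ne_zero_iff.2 fun l _ => hh _
  have hstH : ∀ I : Ideal (MvPolynomial (Fin N) (AlgebraicClosure k₀)), FΩ ∈ I →
      (∀ i, ∀ g ∈ I, ∑ l, pderiv l g * v i l ∈ I) → ∀ a, a ∉ S → a ≠ l₀ → ∀ g ∈ I,
        H * (pderiv l₀ FΩ * pderiv a g - pderiv a FΩ * pderiv l₀ g) ∈ I := by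
    intro I hI1 hI2 a ha1 ha2 g hg
    rw [hH, ← Finset.mul_prod_erase _ _ (Finset.mem_univ a), mul_comm (h a), mul_assoc]
    exact I.mul_mem_left _ (hst a ha1 ha2 I hI1 hI2 g hg)
  have hl₀Ω : aeval x (pderiv l₀ FΩ) ≠ 0 := by
    rw [Ne, hx1]
    refine Pool.Agent.Y742.GG.not_dvd_pderiv ?_
    rw [hFΩ, pderiv_map, Ne, map_eq_zero_iff _ (map_injective _ (RingHom.injective _))]
    exact hl₀
  -- the coefficients
  set C : Set K := ⋃ i, (μ i).coefs with hC
  have hCfin : C.Finite := Set.finite_iUnion fun i => (μ i).coefs_finite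
  -- the countably many conditions
  have hOk₀ : ∀ i, (μ i).w ≠ 0 ∧ (μ i).B.coeff 0 + (μ i).B'.coeff 0 * (μ i).w ≠ 0 := by
    intro i
    have h1 := hOk i _ (RingHom.id (AlgebraicClosure k₀)) FΩ (by
      rw [RingHom.comp_id]
      exact (hx1 FΩ).2 dvd_rfl)
    exact ⟨h1.hw, h1.hB⟩
  have hTi := fun i => exists_T hfrac' (μ i) (hOk₀ i).1 (hOk₀ i).2 (hinf i)
  choose Ti hTi1 hTi2 using hTi
  obtain ⟨T₀, hT₀⟩ : ∃ T₀ : MvPolynomial (Fin N) (AlgebraicClosure k₀), T₀ =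
    H * pderiv l₀ FΩ * (∏ i, u i) * ∏ f ∈ hCfin.toFinset, Qf f := ⟨_, rfl⟩
  have hT₀0 : aeval x T₀ ≠ 0 := by
    rw [hT₀, map_mul, map_mul, map_mul, map_prod, map_prod]
    exact mul_ne_zero (mul_ne_zero (mul_ne_zero hH0 hl₀Ω)
      (Finset.prod_ne_zero_iff.2 fun i _ => hu0 i)) (Finset.prod_ne_zero_iff.2 fun f _ => hQf f)
  refine ⟨fun n => T₀ * ∏ i, Ti i n, fun n => ?_, ?_⟩
  · rw [map_mul, map_prod]
    exact mul_ne_zero hT₀0 (Finset.prod_ne_zero_iff.2 fun i _ => hTi1 i n)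
  intro q n G hG J _ _ _ z hz1 hz2 Dz ν hdz hOkz hinfz A hgenz θ hθF hθT hA1 hA2
  have hcJ : CharZero J := charZero_of_injective_algebraMap
    (algebraMap (AlgebraicClosure k₀) J).injective
  have hθk : ∀ P : MvPolynomial (Fin N) (AlgebraicClosure k₀), aeval x P = 0 → aeval θ P = 0 := by
    intro P hP
    obtain ⟨G, rfl⟩ := (hx1 P).1 hP
    rw [map_mul, hθF, zero_mul]
  have hθT0 : aeval θ T₀ ≠ 0 := by
    have h1 := hθT 0
    rw [map_mul] at h1
    exact left_ne_zero_of_mul h1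
  have hθTi : ∀ i n, aeval θ (Ti i n) ≠ 0 := by
    intro i n
    have h1 := hθT n
    rw [map_mul, map_prod] at h1
    exact Finset.prod_ne_zero_iff.1 (right_ne_zero_of_mul h1) i (Finset.mem_univ i)
  rw [hT₀, map_mul, map_mul, map_mul, map_prod, map_prod] at hθT0
  have hθQ : ∀ f ∈ C, aeval θ (Qf f) ≠ 0 := fun f hf =>
    Finset.prod_ne_zero_iff.1 (right_ne_zero_of_mul hθT0) f (hCfin.mem_toFinset.2 hf)
  have hθu : ∀ i, aeval θ (u i) ≠ 0 := fun i => Finset.prod_ne_zero_iff.1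
    (right_ne_zero_of_mul (left_ne_zero_of_mul hθT0)) i (Finset.mem_univ i)
  have hθl : aeval θ (pderiv l₀ FΩ) ≠ 0 :=
    right_ne_zero_of_mul (left_ne_zero_of_mul (left_ne_zero_of_mul hθT0))
  have hθH : aeval θ H ≠ 0 :=
    left_ne_zero_of_mul (left_ne_zero_of_mul (left_ne_zero_of_mul hθT0))
  -- the family
  have hfracz := fun f : J => frac_of_gen hz2 f
  have hfracz' := hfracz
  choose Pz Qz hQz hPz using hfracz
  obtain ⟨uz, huz⟩ : ∃ uz : Fin n → MvPolynomial (Fin q) (AlgebraicClosure k₀), ∀ i, uz i =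
    ∏ l, Qz (Dz i (z l)) := ⟨_, fun _ => rfl⟩
  obtain ⟨vz, hvz⟩ : ∃ vz : Fin n → Fin q → MvPolynomial (Fin q) (AlgebraicClosure k₀),
    ∀ i l, vz i l = Pz (Dz i (z l)) * ∏ a ∈ Finset.univ.erase l, Qz (Dz i (z a)) :=
    ⟨_, fun _ _ => rfl⟩
  have huz0 : ∀ i, aeval z (uz i) ≠ 0 := by
    intro i
    rw [huz, map_prod]
    exact Finset.prod_ne_zero_iff.2 fun l _ => hQz _
  have huvz : ∀ i l, aeval z (vz i l) = aeval z (uz i) * Dz i (z l) := by
    intro i l
    rw [huz, hvz, ← Finset.mul_prod_erase _ _ (Finset.mem_univ l), map_mul, map_mul, ← hPz]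
    ring
  obtain ⟨b, hb⟩ : ∃ b : MvPolynomial (Fin q) (AlgebraicClosure k₀),
    b = ∏ l : Fin N, Qz (θ l) := ⟨_, rfl⟩
  obtain ⟨a, ha⟩ : ∃ a : Fin N → MvPolynomial (Fin q) (AlgebraicClosure k₀), ∀ l, a l =
    Pz (θ l) * ∏ j ∈ Finset.univ.erase l, Qz (θ j) := ⟨_, fun _ => rfl⟩
  have hbz : aeval z b ≠ 0 := by
    rw [hb, map_prod]
    exact Finset.prod_ne_zero_iff.2 fun l _ => hQz _
  have hab : ∀ l, θ l * aeval z b = aeval z (a l) := by
    intro l
    rw [ha, map_mul, ← hPz, hb, ← Finset.mul_prod_erase Finset.univ _ (Finset.mem_univ l), map_mul]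
    ring
  obtain ⟨JJ, hJJ⟩ : ∃ JJ : Set (Ideal (MvPolynomial (Fin q) (AlgebraicClosure k₀))), JJ =
    {I | G ∈ I ∧ ∀ i, ∀ g ∈ I, ∑ l, pderiv l g * vz i l ∈ I} := ⟨_, rfl⟩
  have hmemz : ∀ i, Dz i ∈ LK z JJ := by
    intro i
    refine ⟨uz i, mkDerivation _ (vz i), huz0 i, lft_of fun l => ?_, ?_⟩
    · rw [mkDerivation_X, huvz]
    · intro I hI g hg
      rw [hJJ] at hI
      rw [W572.derivation_eq_sum]
      simp only [mkDerivation_X]
      exact hI.2 i g hg
  have hAz : ∀ s, A s ∈ LK z JJ := fun s => hgenz s _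
    (fun D hD c => LK_smul (fun f => ⟨Pz f, Qz f, hQz f, hPz f⟩) hD c) hmemz
  choose hz Ez hhz hlz hsz using hAz
  set C₂ : Set J := ⋃ i, (ν i).coefs with hC₂
  have hC₂fin : C₂.Finite := Set.finite_iUnion fun i => (ν i).coefs_finite
  -- a number field
  obtain ⟨k, hkfin, hk, hkr⟩ := descend2 k₀ (S := Pf '' C ∪ Qf '' C ∪ Set.range u ∪
    Set.range (fun z : Fin m × Fin N => v z.1 z.2) ∪ {H})
    (((((hCfin.image _).union (hCfin.image _)).union (Set.finite_range _)).union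
      (Set.finite_range _)).union (Set.finite_singleton _))
    (S' := Pz '' C₂ ∪ Qz '' C₂ ∪ Set.range uz ∪
    Set.range (fun z : Fin n × Fin q => vz z.1 z.2) ∪ {G, b} ∪ Set.range a ∪ Set.range hz)
    (((((((hC₂fin.image _).union (hC₂fin.image _)).union (Set.finite_range _)).union
      (Set.finite_range _)).union (Set.toFinite _)).union (Set.finite_range _)).union
      (Set.finite_range _))
  have hku : ∀ i, ∃ P' : MvPolynomial (Fin N) k,
      MvPolynomial.map (algebraMap k (AlgebraicClosure k₀)) P' = u i := fun i =>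
    hk _ (Or.inl (Or.inl (Or.inr ⟨i, rfl⟩)))
  have hkv : ∀ i l, ∃ P' : MvPolynomial (Fin N) k,
      MvPolynomial.map (algebraMap k (AlgebraicClosure k₀)) P' = v i l := fun i l =>
    hk _ (Or.inl (Or.inr ⟨(i, l), rfl⟩))
  have hkH : ∃ P' : MvPolynomial (Fin N) k,
      MvPolynomial.map (algebraMap k (AlgebraicClosure k₀)) P' = H := hk _ (Or.inr rfl)
  choose u' hu' using hku
  choose v' hv' using hkv
  obtain ⟨H', hH'⟩ := hkH
  have hkuz : ∀ i, ∃ P' : MvPolynomial (Fin q) k,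
      MvPolynomial.map (algebraMap k (AlgebraicClosure k₀)) P' = uz i := fun i =>
    hkr _ (Or.inl (Or.inl (Or.inl (Or.inl (Or.inr ⟨i, rfl⟩)))))
  have hkvz : ∀ i l, ∃ P' : MvPolynomial (Fin q) k,
      MvPolynomial.map (algebraMap k (AlgebraicClosure k₀)) P' = vz i l := fun i l =>
    hkr _ (Or.inl (Or.inl (Or.inl (Or.inr ⟨(i, l), rfl⟩))))
  have hka : ∀ l, ∃ P' : MvPolynomial (Fin q) k,
      MvPolynomial.map (algebraMap k (AlgebraicClosure k₀)) P' = a l := fun l =>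
    hkr _ (Or.inl (Or.inr ⟨l, rfl⟩))
  have hkh : ∀ s, ∃ P' : MvPolynomial (Fin q) k,
      MvPolynomial.map (algebraMap k (AlgebraicClosure k₀)) P' = hz s := fun s =>
    hkr _ (Or.inr ⟨s, rfl⟩)
  choose uz' huz' using hkuz
  choose vz' hvz' using hkvz
  choose a' ha' using hka
  choose hz' hhz' using hkh
  obtain ⟨G', hG'⟩ := hkr G (Or.inl (Or.inl (Or.inr (Or.inl rfl))))
  obtain ⟨b', hb'⟩ := hkr b (Or.inl (Or.inl (Or.inr (Or.inr rfl))))
  have hck : CharZero k := charZero_of_injective_algebraMap (algebraMap k₀ k).injective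
  have hkfg : FG k := hk₀.of_finite
  have hkcount : Countable k := hkfg.countable
  set F' : MvPolynomial (Fin N) k := MvPolynomial.map (algebraMap k₀ k) F with hF'
  have hF'Ω : MvPolynomial.map (algebraMap k (AlgebraicClosure k₀)) F' = FΩ := by
    rw [hF', MvPolynomial.map_map]
    rfl
  have hl₀' : pderiv l₀ F' ≠ 0 := by
    rw [hF', pderiv_map, Ne, map_eq_zero_iff _ (map_injective _ (RingHom.injective _))]
    exact hl₀
  have hφ : ∀ P : MvPolynomial (Fin N) k,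
      eval₂ ((algebraMap (AlgebraicClosure k₀) K).comp (algebraMap k (AlgebraicClosure k₀))) x P =
        aeval x (MvPolynomial.map (algebraMap k (AlgebraicClosure k₀)) P) := by
    intro P
    rw [aeval_def, eval₂_map]
  have hφ0 : ∀ P : MvPolynomial (Fin N) k,
      eval₂ ((algebraMap (AlgebraicClosure k₀) K).comp (algebraMap k (AlgebraicClosure k₀))) x P =
        0 ↔ F' ∣ P := by
    intro P
    rw [hφ, hx1, ← hF'Ω]
    exact ⟨W572.G.dvd_descent F' P, fun h => _root_.map_dvd _ h⟩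
  set φ : MvPolynomial (Fin N) k →+* K := eval₂Hom ((algebraMap (AlgebraicClosure k₀) K).comp
    (algebraMap k (AlgebraicClosure k₀))) x with hφdef
  have hψ : ∀ P : MvPolynomial (Fin q) k,
      eval₂ ((algebraMap (AlgebraicClosure k₀) J).comp (algebraMap k (AlgebraicClosure k₀))) z P =
        aeval z (MvPolynomial.map (algebraMap k (AlgebraicClosure k₀)) P) := by
    intro P
    rw [aeval_def, eval₂_map]
  have hψ0 : ∀ P : MvPolynomial (Fin q) k,
      eval₂ ((algebraMap (AlgebraicClosure k₀) J).comp (algebraMap k (AlgebraicClosure k₀))) z P =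
        0 ↔ G' ∣ P := by
    intro P
    rw [hψ, hz1, ← hG']
    exact ⟨W572.G.dvd_descent G' P, fun h => _root_.map_dvd _ h⟩
  set ψ : MvPolynomial (Fin q) k →+* J := eval₂Hom ((algebraMap (AlgebraicClosure k₀) J).comp
    (algebraMap k (AlgebraicClosure k₀))) z with hψdef
  -- the generic point of the family
  have hG'irr : Irreducible G' := by
    apply irreducible_of_map (algebraMap k (AlgebraicClosure k₀))
    rw [hG']; exact hG
  obtain ⟨l₁, hl₁⟩ := exists_pderiv_ne hG'irr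
  obtain ⟨p, hp, σ, w₀, hgenw, hnear⟩ := exists_generic hkfg hG'irr hl₁
  have hgenZ : ∀ Q, tau σ w₀ Q = 0 ↔ ψ Q = 0 := by
    intro Q
    rw [tau_apply, hgenw]
    exact (hψ0 Q).symm
  have hD₁ : eval₂ σ w₀ b' ≠ 0 := by
    intro h0
    apply hbz
    rw [← hb', ← hψ]
    exact (hgenZ b').1 h0
  obtain ⟨X₀, hX₀⟩ : ∃ X₀ : Fin N → ℚ_[p], ∀ l, X₀ l =
    eval₂ σ w₀ (a' l) / eval₂ σ w₀ b' := ⟨_, fun _ => rfl⟩
  have hclear := fun Q : MvPolynomial (Fin N) k =>
    clearA (MvPolynomial.C : k →+* MvPolynomial (Fin q) k) a' b' Q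
  choose Qc mc hQc using hclear
  have hψb' : ψ b' = aeval z b := by rw [← hb']; exact hψ b'
  have hψa' : ∀ l, ψ (a' l) = aeval z (a l) := fun l => by rw [← ha']; exact hψ _
  have hyv : ∀ l, θ l * ψ b' = ψ (a' l) := by
    intro l
    rw [hψb', hψa']
    exact hab l
  have hψb : ψ b' ≠ 0 := by
    rw [hψb']
    exact hbz
  have hcompC : ∀ {R : Type} [CommRing R] (τ : k →+* R) (w : Fin q → R),
      (eval₂Hom τ w).comp (MvPolynomial.C : k →+* MvPolynomial (Fin q) k) = τ := by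
    intro R _ τ w
    apply RingHom.ext
    intro c
    rw [RingHom.comp_apply, coe_eval₂Hom, eval₂_C]
  have hQF : ψ (Qc F') = 0 := by
    have h1 := hQc F' ψ θ hyv
    have h2 : ∀ Q : MvPolynomial (Fin N) k,
        eval₂ (ψ.comp (MvPolynomial.C : k →+* MvPolynomial (Fin q) k)) θ Q =
        aeval θ (MvPolynomial.map (algebraMap k (AlgebraicClosure k₀)) Q) := by
      intro Q
      rw [hψdef, hcompC, aeval_def, eval₂_map]
    rw [h2 F', hF'Ω, hθF, zero_mul] at h1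
    exact h1.symm
  -- the function field over `k`
  obtain ⟨κ, hκ, π, ι, e, hι, he⟩ := two_homs ψ (tau σ w₀) hgenZ
  have hπb : π b' ≠ 0 := by
    intro h0
    apply hψb
    rw [← hι, h0, map_zero]
  obtain ⟨θ', hθ'⟩ : ∃ θ' : Fin N → κ, ∀ l, θ' l = π (a' l) / π b' := ⟨_, fun _ => rfl⟩
  have hιθ : ∀ l, ι (θ' l) = θ l := by
    intro l
    rw [hθ', map_div₀, hι, hι, ← hyv, mul_div_cancel_right₀ _ hψb]
  obtain ⟨τ', hτ'⟩ : ∃ τ' : MvPolynomial (Fin N) k →+* κ,
    τ' = eval₂Hom (π.comp MvPolynomial.C) θ' := ⟨_, rfl⟩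
  have hιτ : ∀ P, ι (τ' P) = aeval θ (MvPolynomial.map (algebraMap k (AlgebraicClosure k₀)) P) := by
    intro P
    have h1 : ι.comp τ' = ((aeval θ : MvPolynomial (Fin N) (AlgebraicClosure k₀) →ₐ[_] _) :
        MvPolynomial (Fin N) (AlgebraicClosure k₀) →+* _).comp
        (MvPolynomial.map (algebraMap k (AlgebraicClosure k₀))) := by
      apply MvPolynomial.ringHom_ext
      · intro c
        rw [RingHom.comp_apply, RingHom.comp_apply, map_C, hτ', coe_eval₂Hom, eval₂_C,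
          RingHom.comp_apply, hι, hψdef, coe_eval₂Hom, eval₂_C, RingHom.comp_apply]
        exact (MvPolynomial.aeval_C θ _).symm
      · intro l
        rw [RingHom.comp_apply, RingHom.comp_apply, map_X, hτ', coe_eval₂Hom, eval₂_X, hιθ]
        exact (MvPolynomial.aeval_X θ l).symm
    exact congrArg (fun f : MvPolynomial (Fin N) k →+* _ => f P) h1
  have hX₀e : ∀ l, X₀ l = e (θ' l) := by
    intro l
    rw [hX₀, hθ', map_div₀, he, he]
    rfl
  have htau : tau σ X₀ = e.comp τ' := by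
    apply MvPolynomial.ringHom_ext
    · intro c
      rw [tau_apply, eval₂_C, RingHom.comp_apply, hτ', coe_eval₂Hom, eval₂_C,
        RingHom.comp_apply, he, tau_apply, eval₂_C]
    · intro l
      rw [tau_apply, eval₂_X, RingHom.comp_apply, hτ', coe_eval₂Hom, eval₂_X, hX₀e]
  have hkτ : ∀ P, φ P = 0 → τ' P = 0 := by
    intro P hP
    apply ι.injective
    rw [hιτ, map_zero]
    apply hθk
    rw [← hφ]
    exact hP
  have hkX : ∀ P, φ P = 0 → tau σ X₀ P = 0 := by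
    intro P hP
    rw [htau, RingHom.comp_apply, hkτ P hP, map_zero]
  have hne : ∀ P, aeval θ (MvPolynomial.map (algebraMap k (AlgebraicClosure k₀)) P) ≠ 0 →
      tau σ X₀ P ≠ 0 := by
    intro P hP h0
    apply hP
    rw [htau, RingHom.comp_apply, map_eq_zero] at h0
    rw [← hιτ, h0, map_zero]
  have hOk' : ∀ i, (μ i).Ok ((algebraMap (AlgebraicClosure k₀) K).comp
      (algebraMap k (AlgebraicClosure k₀))) F' x := fun i =>
    hOk i k _ F' ((hφ0 F').2 dvd_rfl)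
  -- regularity
  have hregι : ∀ i, ∀ f ∈ (μ i).coefs, f ∈ Oc φ (ι.comp τ') := by
    intro i f hf
    have hfC : f ∈ C := Set.mem_iUnion.2 ⟨i, hf⟩
    obtain ⟨P', hP'⟩ := hk (Pf f) (Or.inl (Or.inl (Or.inl (Or.inl ⟨f, hfC, rfl⟩))))
    obtain ⟨Q', hQ'⟩ := hk (Qf f) (Or.inl (Or.inl (Or.inl (Or.inr ⟨f, hfC, rfl⟩))))
    have hφP : φ P' = aeval x (Pf f) := by rw [← hP']; exact hφ P'
    have hφQ : φ Q' = aeval x (Qf f) := by rw [← hQ']; exact hφ Q'
    have hQ0 : φ Q' ≠ 0 := by rw [hφQ]; exact hQf f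
    have hQt : ι.comp τ' Q' ≠ 0 := by
      rw [RingHom.comp_apply, hιτ, hQ']
      exact hθQ f hfC
    exact ⟨ι.comp τ' P' / ι.comp τ' Q', P', Q', IsUnit.mk0 _ hQt, hQ0, by
      rw [hφP, hφQ]; exact hPf f, div_mul_cancel₀ _ hQt⟩
  have hgood : ∀ i, Good φ (tau σ X₀) (μ i) ∧ (dc ((μ i).w ^ 2) (μ i).q₁ (μ i).q₂ (μ i).q₃ (μ i).q₄
      ≠ 0 → ∀ w q₁ q₂ q₃ q₄, Rg φ (tau σ X₀) (μ i).w w →
      Rg φ (tau σ X₀) (μ i).q₁ q₁ → Rg φ (tau σ X₀) (μ i).q₂ q₂ → Rg φ (tau σ X₀) (μ i).q₃ q₃ →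
      Rg φ (tau σ X₀) (μ i).q₄ q₄ → dc (w ^ 2) q₁ q₂ q₃ q₄ ≠ 0) := by
    intro i
    obtain ⟨hG, hGd⟩ := hTi2 i θ hθk (hθTi i)
    obtain ⟨hG1, hG2⟩ := Good.descend (algebraMap k (AlgebraicClosure k₀)) hG (φ := φ)
      (τ := ι.comp τ') (fun P => hφ P) (fun P => hιτ P) (hregι i)
    rw [htau]
    refine ⟨Good.comp e hkτ (Good.of_comp ι hG1), fun hdc w q₁ q₂ q₃ q₄ h0 h₁ h₂ h₃ h₄ hdz => ?_⟩
    have val : ∀ (f : K) (r' : ℚ_[p]), Rg φ (e.comp τ') f r' → ∃ r, Rg φ τ' f r ∧ r' = e r := by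
      intro f r' hr'
      obtain ⟨r, hr⟩ := hr'.of_comp e
      exact ⟨r, hr, hr'.unique (fun s hs => by rw [RingHom.comp_apply, hkτ s hs, map_zero])
        (hr.comp e)⟩
    obtain ⟨w', k0, rfl⟩ := val _ _ h0
    obtain ⟨q₁', k1, rfl⟩ := val _ _ h₁
    obtain ⟨q₂', k2, rfl⟩ := val _ _ h₂
    obtain ⟨q₃', k3, rfl⟩ := val _ _ h₃
    obtain ⟨q₄', k4, rfl⟩ := val _ _ h₄
    rw [← map_pow, Pool.Agent.Y742.GG.map_dc, map_eq_zero] at hdz
    have h5 := rg_dc hkτ k0 k1 k2 k3 k4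
    rw [hdz] at h5
    have h6 := hG2 _ _ (h5.comp ι)
    rw [map_zero] at h6
    exact (inv_val (fun s hs => hθk s hs) hdc h6 (hGd hdc).2).1 rfl
  have hgoodn : ∀ᶠ X in 𝓝 X₀, ∀ i, eval₂ σ X F' = 0 → Good φ (tau σ X) (μ i) := by
    rw [eventually_all]
    intro i
    have h1 := good_near' σ hkX (μ i) (hgood i).1 (hgood i).2
    rw [eventually_inf_principal] at h1
    filter_upwards [h1] with X hX hXF
    apply hX
    intro P hP
    obtain ⟨G, rfl⟩ := (hφ0 P).1 hP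
    rw [map_mul]
    have : tau σ X F' = 0 := hXF
    rw [this, zero_mul]
  have hnz : ∀ P : MvPolynomial (Fin N) k,
      aeval θ (MvPolynomial.map (algebraMap k (AlgebraicClosure k₀)) P) ≠ 0 →
        ∀ᶠ X in 𝓝 X₀, eval₂ σ X P ≠ 0 := by
    intro P hP
    exact ((cont_tau σ P).tendsto X₀).eventually_ne (hne P hP)
  have hun : ∀ᶠ X in 𝓝 X₀, ∀ i, eval₂ σ X (u' i) ≠ 0 := by
    rw [eventually_all]
    intro i
    apply hnz
    rw [hu']
    exact hθu i
  have hHn : ∀ᶠ X in 𝓝 X₀, eval₂ σ X (H' * pderiv l₀ F') ≠ 0 := by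
    apply hnz
    rw [map_mul, map_mul, hH', ← pderiv_map, hF'Ω]
    exact mul_ne_zero hθH hθl
  obtain ⟨U, hU1, hU2, hU3⟩ := _root_.eventually_nhds_iff.1 (hgoodn.and (hun.and hHn))
  -- the neighbourhood in the family
  have hOkz' : ∀ i, (ν i).Ok ((algebraMap (AlgebraicClosure k₀) J).comp
      (algebraMap k (AlgebraicClosure k₀))) G' z := fun i =>
    hOkz i k _ G' ((hψ0 G').2 dvd_rfl)
  have hregz : ∀ i, ∀ f ∈ (ν i).coefs, f ∈ Oc ψ (tau σ w₀) := by
    intro i f hf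
    have hfC : f ∈ C₂ := Set.mem_iUnion.2 ⟨i, hf⟩
    obtain ⟨P₁, hP₁⟩ := hkr (Pz f)
      (Or.inl (Or.inl (Or.inl (Or.inl (Or.inl (Or.inl ⟨f, hfC, rfl⟩))))))
    obtain ⟨Q₁, hQ₁⟩ := hkr (Qz f)
      (Or.inl (Or.inl (Or.inl (Or.inl (Or.inl (Or.inr ⟨f, hfC, rfl⟩))))))
    have hφP : ψ P₁ = aeval z (Pz f) := by rw [← hP₁]; exact hψ P₁
    have hφQ : ψ Q₁ = aeval z (Qz f) := by rw [← hQ₁]; exact hψ Q₁
    have hQ0 : ψ Q₁ ≠ 0 := by rw [hφQ]; exact hQz f
    have hQt : tau σ w₀ Q₁ ≠ 0 := fun h0 => hQ0 ((hgenZ _).1 h0)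
    exact ⟨tau σ w₀ P₁ / tau σ w₀ Q₁, P₁, Q₁, IsUnit.mk0 _ hQt, hQ0, by
      rw [hφP, hφQ]; exact hPz f, div_mul_cancel₀ _ hQt⟩
  have hgoodz : ∀ᶠ X in 𝓝 w₀, ∀ i, eval₂ σ X G' = 0 → Good ψ (tau σ X) (ν i) := by
    rw [eventually_all]
    intro i
    have h1 := good_near σ hgenZ (ν i) (hOkz' i).hw (hOkz' i).hB (hregz i) (hinfz i)
    rw [eventually_inf_principal] at h1
    filter_upwards [h1] with X hX hXF
    apply hX
    intro Q hQ
    obtain ⟨Q₂, rfl⟩ := (hψ0 Q).1 hQ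
    rw [map_mul]
    have : tau σ X G' = 0 := hXF
    rw [this, zero_mul]
  have hnzz : ∀ Q : MvPolynomial (Fin q) k, ψ Q ≠ 0 → ∀ᶠ X in 𝓝 w₀, eval₂ σ X Q ≠ 0 := by
    intro Q hQ
    have h1 : tau σ w₀ Q ≠ 0 := fun h0 => hQ ((hgenZ _).1 h0)
    exact ((cont_tau σ Q).tendsto w₀).eventually_ne h1
  have hunz : ∀ᶠ X in 𝓝 w₀, ∀ i, eval₂ σ X (uz' i) ≠ 0 := by
    rw [eventually_all]
    intro i
    apply hnzz
    show eval₂ _ _ _ ≠ 0
    rw [hψ, huz']
    exact huz0 i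
  have hhzn : ∀ᶠ X in 𝓝 w₀, ∀ s, eval₂ σ X (hz' s) ≠ 0 := by
    rw [eventually_all]
    intro s
    apply hnzz
    show eval₂ _ _ _ ≠ 0
    rw [hψ, hhz']
    exact hhz s
  have hbn : ∀ᶠ X in 𝓝 w₀, eval₂ σ X b' ≠ 0 := hnzz b' hψb
  have hcont : ContinuousAt (fun (w : Fin q → ℚ_[p]) (l : Fin N) =>
      eval₂ σ w (a' l) / eval₂ σ w b') w₀ :=
    continuousAt_pi.2 fun l => ((cont_tau σ (a' l)).continuousAt).div
      ((cont_tau σ b').continuousAt) hD₁
  have hXU : ∀ᶠ w in 𝓝 w₀, (fun l : Fin N => eval₂ σ w (a' l) / eval₂ σ w b') ∈ U := by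
    refine hcont.preimage_mem_nhds ?_
    have hX₀' : (fun l : Fin N => eval₂ σ w₀ (a' l) / eval₂ σ w₀ b') = X₀ :=
      funext fun l => (hX₀ l).symm
    change U ∈ 𝓝 (fun l : Fin N => eval₂ σ w₀ (a' l) / eval₂ σ w₀ b')
    rw [hX₀']
    exact hU2.mem_nhds hU3
  obtain ⟨B, hB1, hB2, hB3⟩ := _root_.eventually_nhds_iff.1
    (hgoodz.and (hunz.and (hhzn.and (hbn.and hXU))))
  obtain ⟨w', hw'B, hw'G, hw'alg⟩ := hnear B (hB2.mem_nhds hB3)
  -- the field of the point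
  let : Algebra k ℚ_[p] := σ.toAlgebra
  have hfinX : Finite (Set.range w') := Set.finite_range w'
  have hint : ∀ z ∈ Set.range w', IsIntegral k z := by
    rintro _ ⟨l, rfl⟩
    obtain ⟨f, hf0, hf⟩ := hw'alg l
    exact IsAlgebraic.isIntegral ⟨f, hf0, hf⟩
  set M := IntermediateField.adjoin k (Set.range w') with hM
  have hMfin : FiniteDimensional k M := IntermediateField.finiteDimensional_adjoin hint
  have hMalg : Algebra.IsAlgebraic k M := Algebra.IsAlgebraic.of_finite k M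
  let e : M →ₐ[k] AlgebraicClosure k₀ := IsAlgClosed.lift
  let : Algebra M (AlgebraicClosure k₀) := e.toRingHom.toAlgebra
  have hcomp : (algebraMap M (AlgebraicClosure k₀)).comp (algebraMap k M) =
      algebraMap k (AlgebraicClosure k₀) := e.comp_algebraMap
  let σ₁ : M →+* ℚ_[p] := M.val.toRingHom
  have hσ₁ : σ₁.comp (algebraMap k M) = σ := rfl
  have hdr : DenseRange σ₁ := by
    refine (denseRange_rat (p := p)).mono ?_
    rintro _ ⟨q, rfl⟩
    exact ⟨(q : M), map_ratCast σ₁ q⟩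
  let wM : Fin q → M := fun l => ⟨w' l, IntermediateField.subset_adjoin _ _ ⟨l, rfl⟩⟩
  have hwM : (fun l => σ₁ (wM l)) = w' := rfl
  -- values at points over `M`
  have hvM : ∀ (t : Fin q → M) (c : MvPolynomial (Fin q) k),
      σ₁ (eval₂ (algebraMap k M) t c) = eval₂ σ (fun l => σ₁ (t l)) c := by
    intro t c
    rw [eval₂_comp_left]
    rfl
  have hvΩ : ∀ (t : Fin q → M) (c : MvPolynomial (Fin q) k),
      algebraMap M (AlgebraicClosure k₀) (eval₂ (algebraMap k M) t c) =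
      aeval (fun l => algebraMap M (AlgebraicClosure k₀) (t l))
        (MvPolynomial.map (algebraMap k (AlgebraicClosure k₀)) c) := by
    intro t c
    rw [eval₂_comp_left, hcomp, aeval_eq_eval, eval_map]
    rfl
  obtain ⟨TZ, hTZ⟩ : ∃ TZ : Set (Fin q → M), TZ = Tset G' (algebraMap k M) σ₁ B := ⟨_, rfl⟩
  have hwTZ : wM ∈ TZ := by
    rw [hTZ]
    refine ⟨?_, ?_⟩
    · apply σ₁.injective
      rw [hvM, map_zero]
      exact hw'G
    · exact hw'B
  have hBz : ∀ t ∈ TZ, eval₂ (algebraMap k M) t G' = 0 ∧ (fun l => σ₁ (t l)) ∈ B := by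
    intro t ht
    rw [hTZ] at ht
    exact ht
  have hne : ∀ t ∈ TZ, ∀ c : MvPolynomial (Fin q) k, eval₂ σ (fun l => σ₁ (t l)) c ≠ 0 →
      aeval (fun l => algebraMap M (AlgebraicClosure k₀) (t l))
        (MvPolynomial.map (algebraMap k (AlgebraicClosure k₀)) c) ≠ 0 := by
    intro t ht c hc h0
    apply hc
    rw [← hvΩ] at h0
    rw [← hvM, (map_eq_zero _).1 h0, map_zero]
  -- stability of the ideal
  have hstabz : ∀ (i : Fin n) (g : MvPolynomial (Fin q) (AlgebraicClosure k₀)),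
      (∀ t ∈ TZ, eval (fun l => algebraMap M (AlgebraicClosure k₀) (t l)) g = 0) →
      ∀ t ∈ TZ, eval (fun l => algebraMap M (AlgebraicClosure k₀) (t l))
        (∑ l, pderiv l g * vz i l) = 0 := by
    intro i g hg
    have h1 := stab_pts (M := M) (Ω := AlgebraicClosure k₀) (algebraMap k M) σ₁ hdr (x := z)
      (F := G') (by rw [hcomp]; exact hψ0) hB2 ν (by rw [hcomp]; exact hOkz')
      (by
        rw [hcomp, hσ₁]
        intro i X hX
        exact (hB1 X hX).1 i) uz' vz'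
      (by
        rw [hcomp]
        intro i l
        rw [hψ, hψ, hvz', huz', huvz, hdz])
      (by
        rw [hcomp]
        intro i
        rw [hψ, huz']
        exact huz0 i)
      (by
        rw [hσ₁]
        intro i X hX
        exact (hB1 X hX).2.1 i) i g (by rw [← hTZ]; exact hg)
    rw [← hTZ, hcomp] at h1
    simpa only [hvz'] using h1
  -- density in the base
  obtain ⟨V, hV⟩ : ∃ V : Set (Fin q → AlgebraicClosure k₀), V =
    (fun (t : Fin q → M) (l : Fin q) => algebraMap M (AlgebraicClosure k₀) (t l)) '' TZ :=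
    ⟨_, rfl⟩
  obtain ⟨IV, hIV⟩ : ∃ IV : Ideal (MvPolynomial (Fin q) (AlgebraicClosure k₀)),
      ∀ g, g ∈ IV ↔ ∀ w ∈ V, aeval w g = 0 :=
    ⟨{ carrier := {g | ∀ w ∈ V, aeval w g = 0}
       add_mem' := fun {a b} ha hb y hy => by rw [map_add, ha y hy, hb y hy, add_zero]
       zero_mem' := fun y _ => map_zero _
       smul_mem' := fun c g hg y hy => by
        rw [smul_eq_mul, map_mul, hg y hy, mul_zero] }, fun g => Iff.rfl⟩
  have hGV : ∀ w ∈ V, aeval w G = 0 := by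
    intro w hw
    rw [hV] at hw
    obtain ⟨t, ht, rfl⟩ := hw
    rw [← hG', ← hvΩ, (hBz t ht).1, map_zero]
  have hIVJ : IV ∈ JJ := by
    rw [hJJ]
    refine ⟨(hIV G).2 hGV, fun i g hg => ?_⟩
    rw [hIV] at hg ⊢
    intro w hw
    rw [hV] at hw
    obtain ⟨t, ht, rfl⟩ := hw
    rw [aeval_eq_eval]
    refine hstabz i g (fun t ht => ?_) t ht
    have h1 := hg _ (by rw [hV]; exact ⟨t, ht, rfl⟩)
    rwa [aeval_eq_eval] at h1
  have hbase : ∀ R : MvPolynomial (Fin N) (AlgebraicClosure k₀), (R.vars : Set (Fin N)) ⊆ S →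
      (∀ y ∈ Tset F' (algebraMap k M) σ₁ U,
        eval (fun l => algebraMap M (AlgebraicClosure k₀) (y l)) R = 0) → R = 0 := by
    intro R hRS hR
    rw [← mem_supported, supported_eq_range_rename, AlgHom.mem_range] at hRS
    obtain ⟨R₁, rfl⟩ := hRS
    have hR₁ : R₁ = 0 := by
      refine ind_pts (x := z) (V := V) ⟨_, by rw [hV]; exact ⟨wM, hwTZ, rfl⟩⟩
        (fun Q hQ w hw => ?_) (fun s : S => θ s)
        (fun w s => aeval w (a s) / aeval w b) (fun s => a s) b (fun w hw => ?_)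
        (fun l => hab l) (fun w hw l => ?_) A hA1 hA2 (fun s => ?_) R₁ (fun w hw => ?_)
      · obtain ⟨Q', rfl⟩ := (hz1 Q).1 hQ
        rw [map_mul, hGV w hw, zero_mul]
      · rw [hV] at hw
        obtain ⟨t, ht, rfl⟩ := hw
        rw [← hb']
        exact hne t ht b' (hB1 _ (hBz t ht).2).2.2.2.1
      · refine div_mul_cancel₀ _ ?_
        rw [hV] at hw
        obtain ⟨t, ht, rfl⟩ := hw
        rw [← hb']
        exact hne t ht b' (hB1 _ (hBz t ht).2).2.2.2.1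
      · refine ⟨hz s, Ez s, fun w hw => ?_, hlz s, fun g hg w hw => ?_⟩
        · rw [hV] at hw
          obtain ⟨t, ht, rfl⟩ := hw
          rw [← hhz']
          exact hne t ht (hz' s) ((hB1 _ (hBz t ht).2).2.2.1 s)
        · exact (hIV _).1 (hsz s IV hIVJ g ((hIV g).2 hg)) w hw
      · rw [hV] at hw
        obtain ⟨t, ht, rfl⟩ := hw
        obtain ⟨y₁, hy₁⟩ : ∃ y₁ : Fin N → M, ∀ l, y₁ l =
          eval₂ (algebraMap k M) t (a' l) / eval₂ (algebraMap k M) t b' := ⟨_, fun _ => rfl⟩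
        have hDt : eval₂ (algebraMap k M) t b' ≠ 0 := by
          intro h0
          apply (hB1 _ (hBz t ht).2).2.2.2.1
          rw [← hvM, h0, map_zero]
        have hy₁v : ∀ l, y₁ l * eval₂Hom (algebraMap k M) t b' =
            eval₂Hom (algebraMap k M) t (a' l) := fun l => by
          rw [hy₁, coe_eval₂Hom, div_mul_cancel₀ _ hDt]
        have hyT : y₁ ∈ Tset F' (algebraMap k M) σ₁ U := by
          refine ⟨?_, ?_⟩
          · have h2 := hQc F' (eval₂Hom (algebraMap k M) t) y₁ hy₁v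
            rw [hcompC] at h2
            have h3 : eval₂Hom (algebraMap k M) t (Qc F') = 0 := by
              have h4 : ψ (Qc F') = 0 := hQF
              obtain ⟨Q', hQ'⟩ := (hψ0 _).1 h4
              rw [hQ', map_mul]
              have h5 : eval₂Hom (algebraMap k M) t G' = 0 := (hBz t ht).1
              rw [h5, zero_mul]
            rw [h3] at h2
            exact (mul_eq_zero.1 h2).resolve_right (pow_ne_zero _ hDt)
          · have h4 := (hB1 _ (hBz t ht).2).2.2.2.2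
            have h5 : (fun l : Fin N => eval₂ σ (fun l => σ₁ (t l)) (a' l) /
                eval₂ σ (fun l => σ₁ (t l)) b') = fun l => σ₁ (y₁ l) := by
              funext l
              rw [← hvM, ← hvM, hy₁, map_div₀]
            rw [← h5]
            exact h4
        have h6 := hR y₁ hyT
        rw [← aeval_eq_eval, aeval_rename] at h6
        have h7 : ((fun l => algebraMap M (AlgebraicClosure k₀) (y₁ l)) ∘ fun s : S => (s : Fin N)) =
            fun s : S => aeval (fun l => algebraMap M (AlgebraicClosure k₀) (t l)) (a s) /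
              aeval (fun l => algebraMap M (AlgebraicClosure k₀) (t l)) b := by
          funext s
          rw [Function.comp_apply, hy₁, map_div₀, hvΩ, hvΩ, ha', hb']
        rw [h7] at h6
        exact h6
    rw [hR₁, map_zero]
  refine ⟨e.fieldRange.restrictScalars k₀, ?_, fun P hP => ?_⟩
  · have h1 : FiniteDimensional k e.fieldRange :=
      (AlgEquiv.ofInjectiveField e).toLinearEquiv.finiteDimensional
    exact FiniteDimensional.trans k₀ k e.fieldRange
  · rw [← hF'Ω, ← hcomp]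
    refine dens_rel (M := M) (Ω := AlgebraicClosure k₀) (algebraMap k M) σ₁ hdr (x := x)
      (F := F') ?_ ?_ hU2 μ ?_ ?_ u' v' ?_ ?_ ?_ S l₀ hS₀ hl₀' H' ?_ ?_ hbase P ?_
    · rw [hcomp, hF'Ω]; exact hF
    · rw [hcomp]; exact hφ0
    · rw [hcomp]; exact hOk'
    · rw [hcomp, hσ₁]
      intro i X hX
      exact (hU1 X hX).1 i
    · rw [hcomp]
      intro i l
      rw [hφ, hφ, hv', hu', huv, hd]
    · rw [hcomp]
      intro i
      rw [hφ, hu']
      exact hu0 i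
    · rw [hσ₁]
      intro i X hX
      exact (hU1 X hX).2.1 i
    · rw [hcomp, hF'Ω, hH']
      intro I hI1 hI2
      refine hstH I hI1 fun i g hg => ?_
      have := hI2 i g hg
      simpa only [hv'] using this
    · rw [hσ₁]
      intro X hX
      exact (hU1 X hX).2.2
    · intro y hy
      apply hP
      · intro l
        exact ⟨y l, rfl⟩
      · rw [← hF'Ω, ← hcomp, eval_map]
        have := eval₂_comp_left (algebraMap M (AlgebraicClosure k₀)) (algebraMap k M) y F'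
        rw [hy.1, map_zero] at this
        exact this.symm

end Pool.Agent.U207.AP
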