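import Pool.Agent.U207.PD.Cov

/-! Stable vanishing ideals of sets of points, and independence of the values of functions. The
first theorem is the first part of `Pool.Agent.U207.PD.dens_rel`. -/

set_option autoImplicit false
set_option linter.unusedSectionVars false

open Pool.Agent.Y720.MZ Filter Topology MvPolynomial Pool.Agent.Y742.GG Pool.Agent

namespace Pool.Agent.U207.AP

section core

variable {k : Type*} [Field k] {M : Type*} [Field M] [CharZero M] [DecidableEq M]
  {Ω : Type} [Field Ω] [CharZero Ω] [Algebra M Ω] {p : ℕ} [hp : Fact p.Prime]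
  [DecidableEq ℚ_[p]] {K : Type*} [Field K] [Algebra Ω K] {N m : ℕ}

/-- The vanishing ideal is stable. -/
theorem stab_pts (j : k →+* M) (σ : M →+* ℚ_[p]) (hσ : DenseRange σ) {x : Fin N → K}
    {F : MvPolynomial (Fin N) k}
    (hF : ∀ P : MvPolynomial (Fin N) k,
      eval₂ ((algebraMap Ω K).comp ((algebraMap M Ω).comp j)) x P = 0 ↔ F ∣ P)
    {U : Set (Fin N → ℚ_[p])} (hU : IsOpen U) (μ : Fin m → Mv K N)
    (hμ : ∀ i, (μ i).Ok ((algebraMap Ω K).comp ((algebraMap M Ω).comp j)) F x)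
    (hgood : ∀ i, ∀ X ∈ U, eval₂ (σ.comp j) X F = 0 →
      Good (eval₂Hom ((algebraMap Ω K).comp ((algebraMap M Ω).comp j)) x) (tau (σ.comp j) X) (μ i))
    (u : Fin m → MvPolynomial (Fin N) k) (v : Fin m → Fin N → MvPolynomial (Fin N) k)
    (huv : ∀ i l, eval₂ ((algebraMap Ω K).comp ((algebraMap M Ω).comp j)) x (v i l) =
      eval₂ ((algebraMap Ω K).comp ((algebraMap M Ω).comp j)) x (u i) * (μ i).d l)
    (hux : ∀ i, eval₂ ((algebraMap Ω K).comp ((algebraMap M Ω).comp j)) x (u i) ≠ 0)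
    (hu : ∀ i, ∀ X ∈ U, eval₂ (σ.comp j) X (u i) ≠ 0) (i : Fin m)
    (g : MvPolynomial (Fin N) Ω)
    (hg : ∀ y ∈ Tset F j σ U, eval (fun l => algebraMap M Ω (y l)) g = 0) :
    ∀ y ∈ Tset F j σ U, eval (fun l => algebraMap M Ω (y l))
      (∑ l, pderiv l g * MvPolynomial.map ((algebraMap M Ω).comp j) (v i l)) = 0 := by
  classical
  -- evaluations
  have ev1 : ∀ (y : Fin N → M) (G : MvPolynomial (Fin N) k),
      eval (fun l => algebraMap M Ω (y l)) (MvPolynomial.map ((algebraMap M Ω).comp j) G) =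
        algebraMap M Ω (eval₂ j y G) := by
    intro y G
    rw [eval_map, eval₂_comp_left]
    rfl
  have ev2 : ∀ (y : Fin N → M) (G : MvPolynomial (Fin N) k),
      eval₂ (σ.comp j) (fun l => σ (y l)) G = σ (eval₂ j y G) := by
    intro y G
    rw [eval₂_comp_left]
    rfl
  intro y hy
  have huy : eval₂ j y (u i) ≠ 0 := by
    intro h0
    apply hu i _ hy.2
    rw [ev2, h0, map_zero]
  set dy : Fin N → M := fun l => eval₂ j y (v i l) / eval₂ j y (u i) with hdy
  have hrg : ∀ l, Rg (eval₂Hom ((algebraMap Ω K).comp ((algebraMap M Ω).comp j)) x)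
      (eval₂Hom j y) ((μ i).d l) (dy l) := by
    intro l
    refine ⟨v i l, u i, IsUnit.mk0 _ huy, hux i, ?_, ?_⟩
    · rw [mul_comm]
      exact (huv i l).symm
    · exact div_mul_cancel₀ _ huy
  have hzero : ∑ l, eval (fun l => algebraMap M Ω (y l)) (pderiv l g) *
      algebraMap M Ω (dy l) = 0 := by
    apply eq_zero_of_functional (M := M)
    intro f
    have h1 := tangent hF j σ hσ hU (hμ i) (hgood i) (h := Lam f g) (by
      intro z hz
      rw [eval_Lam, hg z hz, map_zero]) hy hrg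
    rw [map_sum, ← h1]
    refine Finset.sum_congr rfl fun l _ => ?_
    have hf : ∀ (a : Ω) (c : M), f (a * algebraMap M Ω c) = f a * c := by
      intro a c
      rw [mul_comm, ← Algebra.smul_def, map_smul, smul_eq_mul, mul_comm]
    rw [pderiv_Lam, eval_Lam, hf]
  rw [map_sum]
  have h2 : ∀ l, eval (fun l => algebraMap M Ω (y l)) (pderiv l g *
      MvPolynomial.map ((algebraMap M Ω).comp j) (v i l)) =
      algebraMap M Ω (eval₂ j y (u i)) * (eval (fun l => algebraMap M Ω (y l)) (pderiv l g) *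
      algebraMap M Ω (dy l)) := by
    intro l
    rw [map_mul, ev1]
    have : eval₂ j y (v i l) = eval₂ j y (u i) * dy l := by
      rw [hdy]; exact (mul_div_cancel₀ _ huy).symm
    rw [this, map_mul]
    ring
  rw [Finset.sum_congr rfl fun l _ => h2 l, ← Finset.mul_sum, hzero, mul_zero]

end core

/-- values at quotients -/
theorem clearG {Ω A : Type} [Field Ω] [CommRing A] [Algebra Ω A] {σ : Type} (a : σ → A) (d : A)
    (Q : MvPolynomial σ Ω) :
    ∃ (Q' : A) (m : ℕ), ∀ {R : Type} [Field R] [Algebra Ω R] (ρ : A →ₐ[Ω] R) (z : σ → R),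
      (∀ l, z l * ρ d = ρ (a l)) → aeval z Q * ρ d ^ m = ρ Q' := by
  induction Q using MvPolynomial.induction_on with
  | C r =>
    refine ⟨algebraMap Ω A r, 0, fun ρ z _ => ?_⟩
    rw [MvPolynomial.aeval_C, pow_zero, mul_one, AlgHom.commutes]
  | add p q hp hq =>
    obtain ⟨Q₁, e₁, h₁⟩ := hp
    obtain ⟨Q₂, e₂, h₂⟩ := hq
    refine ⟨Q₁ * d ^ e₂ + Q₂ * d ^ e₁, e₁ + e₂, fun ρ z hz => ?_⟩
    rw [map_add, map_add, map_mul, map_mul, map_pow, map_pow, ← h₁ ρ z hz, ← h₂ ρ z hz]
    ring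
  | mul_X p i hp =>
    obtain ⟨Q, e, h⟩ := hp
    refine ⟨Q * a i, e + 1, fun ρ z hz => ?_⟩
    rw [map_mul, MvPolynomial.aeval_X, map_mul, ← h ρ z hz, ← hz i]
    ring

theorem pow_der {Ω K : Type} [Field Ω] [Field K] [Algebra Ω K] (D : Derivation Ω K K) (B : K)
    (m : ℕ) : D (B ^ m) * B = m * B ^ m * D B := by
  induction m with
  | zero => simp
  | succ m ih =>
    rw [pow_succ, Derivation.leibniz, smul_eq_mul, smul_eq_mul]
    push_cast
    linear_combination B * ih

/-- Functions with a dual system of derivations which stabilize the vanishing ideal of a set of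
points satisfy no relation on this set. -/
theorem ind_pts {Ω K : Type} [Field Ω] [CharZero Ω] [Field K] [Algebra Ω K] {N : ℕ}
    {x : Fin N → K} {V : Set (Fin N → Ω)} (hV : V.Nonempty)
    (hF : ∀ Q : MvPolynomial (Fin N) Ω, aeval x Q = 0 → ∀ w ∈ V, aeval w Q = 0)
    {ι : Type} [Finite ι] (y : ι → K) (Y : (Fin N → Ω) → ι → Ω)
    (a : ι → MvPolynomial (Fin N) Ω) (b : MvPolynomial (Fin N) Ω)
    (hbV : ∀ w ∈ V, aeval w b ≠ 0)
    (hy : ∀ l, y l * aeval x b = aeval x (a l))
    (hY : ∀ w ∈ V, ∀ l, Y w l * aeval w b = aeval w (a l))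
    (A : ι → Derivation Ω K K) (hA1 : ∀ s, A s (y s) = 1) (hA2 : ∀ s t, s ≠ t → A s (y t) = 0)
    (hst : ∀ s, ∃ (h : MvPolynomial (Fin N) Ω)
      (E : Derivation Ω (MvPolynomial (Fin N) Ω) (MvPolynomial (Fin N) Ω)),
      (∀ w ∈ V, aeval w h ≠ 0) ∧ Lft x E (A s) h ∧
      ∀ g, (∀ w ∈ V, aeval w g = 0) → ∀ w ∈ V, aeval w (E g) = 0)
    (R : MvPolynomial ι Ω) (hR : ∀ w ∈ V, aeval (Y w) R = 0) : R = 0 := by
  classical
  have hDer : ∀ (s : ι) (Q : MvPolynomial ι Ω), A s (aeval y Q) = aeval y (pderiv s Q) := by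
    intro s Q
    induction Q using MvPolynomial.induction_on with
    | C r => rw [MvPolynomial.aeval_C, Derivation.map_algebraMap, pderiv_C, map_zero]
    | add p q hp hq => rw [map_add, map_add, hp, hq, map_add, map_add]
    | mul_X p i hp =>
      rw [map_mul, MvPolynomial.aeval_X, Derivation.leibniz, Derivation.leibniz, hp, smul_eq_mul,
        smul_eq_mul, smul_eq_mul, smul_eq_mul, map_add, map_mul, map_mul, MvPolynomial.aeval_X]
      by_cases hi : s = i
      · subst hi
        rw [hA1, pderiv_X_self, map_one]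
      · rw [hA2 s i hi, pderiv_X_of_ne (Ne.symm hi), map_zero]
  refine Pool.Agent.U207.GB.zero_of_closed (σ := ι) ∅ {Q | ∀ w ∈ V, aeval (Y w) Q = 0} ?_ ?_ R hR
  · intro Q hQ s _
    obtain ⟨h, E, hh, hl, hs⟩ := hst s
    obtain ⟨Q₁, m₁, h₁⟩ := clearG a b Q
    obtain ⟨Q₂, m₂, h₂⟩ := clearG a b (pderiv s Q)
    have f1 := h₁ (aeval x) y hy
    have f2 := h₂ (aeval x) y hy
    have e1 : ∀ w ∈ V, aeval w Q₁ = 0 := by
      intro w hw
      have e1 := h₁ (aeval w) (Y w) (hY w hw)
      rw [hQ w hw, zero_mul] at e1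
      exact e1.symm
    have key : aeval x (E Q₁ * b ^ (m₂ + 1) - (h * Q₂ * b ^ (m₁ + 1) +
        (m₁ : MvPolynomial (Fin N) Ω) * Q₁ * b ^ m₂ * E b)) = 0 := by
      have h3 := pow_der (A s) (aeval x b) m₁
      have h4 := hl Q₁
      rw [← f1, Derivation.leibniz, hDer, smul_eq_mul, smul_eq_mul] at h4
      simp only [map_sub, map_add, map_mul, map_pow, map_natCast]
      rw [h4, hl b, ← f1, ← f2]
      linear_combination aeval x h * aeval y Q * aeval x b ^ m₂ * h3
    intro w hw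
    have e2 := h₂ (aeval w) (Y w) (hY w hw)
    have g1 := hs Q₁ e1 w hw
    have h5 := hF _ key w hw
    simp only [map_sub, map_add, map_mul, map_pow, map_natCast] at h5
    rw [g1, e1 w hw] at h5
    have h6 : aeval w h * aeval w Q₂ * aeval w b ^ (m₁ + 1) = 0 := by linear_combination -h5
    have h7 : aeval w Q₂ = 0 := by
      have h8 := (mul_eq_zero.1 h6).resolve_right (pow_ne_zero _ (hbV w hw))
      exact (mul_eq_zero.1 h8).resolve_left (hh w hw)
    rw [h7] at e2
    exact (mul_eq_zero.1 e2).resolve_right (pow_ne_zero _ (hbV w hw))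
  · intro R hR hv
    rw [← mem_supported, supported_empty, Algebra.mem_bot] at hv
    obtain ⟨r, rfl⟩ := hv
    obtain ⟨w, hw⟩ := hV
    have h1 : aeval (Y w) (algebraMap Ω (MvPolynomial ι Ω) r) = 0 := hR w hw
    rw [AlgHom.commutes] at h1
    have h2 : r = 0 := h1
    rw [h2, map_zero]

end Pool.Agent.U207.AP
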